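import Pool.Agent.W990.EB.Stm

set_option autoImplicit false

/-! EB-EXC: exponential means of a sequence with small upper mean. -/

namespace Pool.Agent.W196.EB

open Finset Pool.Agent.W990.EB

theorem abel (e : ℕ → ℝ) (δ C0 q : ℝ) (hq0 : 0 < q) (hq1 : q ≤ 1)
    (hE : ∀ N : ℕ, ∑ n ∈ range N, e n ≤ δ * N + C0) (M : ℕ) :
    ∑ n ∈ range M, e n * q ^ n ≤
      δ * ∑ n ∈ range M, q ^ n + C0 - (C0 + δ * M - ∑ n ∈ range M, e n) * q ^ M := by
  induction M with
  | zero => simp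
  | succ M ih =>
    rw [Finset.sum_range_succ (fun n => e n * q ^ n), Finset.sum_range_succ (fun n => q ^ n)]
    have h1 := hE (M + 1)
    have h2 : 0 ≤ C0 + δ * ((M + 1 : ℕ) : ℝ) - ∑ n ∈ range (M + 1), e n := by linarith
    have h3 : q ^ (M + 1) ≤ q ^ M := by
      rw [pow_succ]
      have := pow_pos hq0 M
      nlinarith
    have h4 : (C0 + δ * ((M + 1 : ℕ) : ℝ) - ∑ n ∈ range (M + 1), e n) * q ^ (M + 1) ≤
        (C0 + δ * ((M + 1 : ℕ) : ℝ) - ∑ n ∈ range (M + 1), e n) * q ^ M :=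
      mul_le_mul_of_nonneg_left h3 h2
    have h5 : ∑ n ∈ range (M + 1), e n = ∑ n ∈ range M, e n + e M := Finset.sum_range_succ _ _
    have h6 : (C0 + δ * ((M + 1 : ℕ) : ℝ) - ∑ n ∈ range (M + 1), e n) * q ^ M =
        (C0 + δ * M - ∑ n ∈ range M, e n) * q ^ M + δ * q ^ M - e M * q ^ M := by
      rw [h5]; push_cast; ring
    rw [h6] at h4
    linarith

theorem exc : S_EXC := by
  intro e δ he hδ hev
  obtain ⟨N0, hN0⟩ := Filter.eventually_atTop.1 hev
  set C0 : ℝ := ∑ n ∈ range N0, e n with hC0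
  have hC0nn : 0 ≤ C0 := Finset.sum_nonneg fun n _ => he n
  have hE : ∀ N : ℕ, ∑ n ∈ range N, e n ≤ δ * N + C0 := by
    intro N
    have hN : 0 ≤ δ * (N : ℝ) := mul_nonneg hδ (Nat.cast_nonneg N)
    rcases le_total N0 N with h | h
    · have := hN0 N h
      linarith
    · have : ∑ n ∈ range N, e n ≤ C0 := by
        rw [hC0]
        apply Finset.sum_le_sum_of_subset_of_nonneg
        · intro x hx
          rw [Finset.mem_range] at hx ⊢
          omega
        · intro x _ _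
          exact he x
      linarith
  refine ⟨δ + C0, by linarith, ?_⟩
  intro t M ht0 _
  set q : ℝ := Real.exp (-(2 * t)) with hq
  have hq0 : 0 < q := Real.exp_pos _
  have hx : 0 < 2 * t := by linarith
  have hq1' : q * (1 + 2 * t) ≤ 1 := by
    have h1 : 2 * t + 1 ≤ Real.exp (2 * t) := Real.add_one_le_exp _
    have h2 : q * Real.exp (2 * t) = 1 := by
      rw [hq, ← Real.exp_add]; simp
    nlinarith
  have hq1 : q < 1 := by nlinarith
  have hpow : ∀ n : ℕ, Real.exp (-(2 * t * n)) = q ^ n := by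
    intro n
    rw [hq, ← Real.exp_nat_mul]
    congr 1; ring
  have h1 : ∑ n ∈ range M, e n * Real.exp (-(2 * t * n)) = ∑ n ∈ range M, e n * q ^ n := by
    apply Finset.sum_congr rfl
    intro n _
    rw [hpow]
  rw [h1]
  have h2 := abel e δ C0 q hq0 hq1.le hE M
  have h3 : 0 ≤ (C0 + δ * M - ∑ n ∈ range M, e n) * q ^ M := by
    apply mul_nonneg
    · have := hE M; linarith
    · exact (pow_pos hq0 M).le
  have h4 : ∑ n ∈ range M, q ^ n ≤ 1 / (2 * t) + 1 := by
    have h5 : (1 - q) * ∑ n ∈ range M, q ^ n = 1 - q ^ M := mul_neg_geom_sum q M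
    have h6 : 0 < q ^ M := pow_pos hq0 M
    have h7 : 2 * t ≤ (1 - q) * (1 + 2 * t) := by nlinarith
    have h8 : 1 / (2 * t) + 1 = (1 + 2 * t) / (2 * t) := by
      field_simp
    rw [h8, le_div_iff₀ hx]
    have h9 : 0 ≤ ∑ n ∈ range M, q ^ n := Finset.sum_nonneg fun n _ => (pow_pos hq0 n).le
    calc (∑ n ∈ range M, q ^ n) * (2 * t) ≤ (∑ n ∈ range M, q ^ n) * ((1 - q) * (1 + 2 * t)) :=
          mul_le_mul_of_nonneg_left h7 h9
      _ = ((1 - q) * ∑ n ∈ range M, q ^ n) * (1 + 2 * t) := by ring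
      _ = (1 - q ^ M) * (1 + 2 * t) := by rw [h5]
      _ ≤ 1 * (1 + 2 * t) := by
          apply mul_le_mul_of_nonneg_right _ (by linarith)
          linarith
      _ = 1 + 2 * t := one_mul _
  have h5 : δ * ∑ n ∈ range M, q ^ n ≤ δ * (1 / (2 * t) + 1) := mul_le_mul_of_nonneg_left h4 hδ
  have h6 : δ * (1 / (2 * t) + 1) = δ / (2 * t) + δ := by ring
  linarith

end Pool.Agent.W196.EB
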